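import Mathlib

set_option autoImplicit false

namespace Pool.Agent.Results.MP_935800_an.No

open Set MeasureTheory Filter Topology

/-- the class of functions with all partial derivatives of order at most `k` bounded by one -/
def Cls (d k : ℕ) (D : Set (Fin d → ℝ)) : Set ((Fin d → ℝ) → ℝ) :=
  {f | ContDiffOn ℝ k f (interior D) ∧ (∀ x ∈ D, |f x| ≤ 1) ∧
    ∀ m ≤ k, ∀ i : Fin m → Fin d, ∀ x ∈ interior D,
      |iteratedFDeriv ℝ m f x fun j => Pi.single (i j) 1| ≤ 1}

/-- the `n`-th minimal worst-case error of integration over `D` -/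
noncomputable def err (d k : ℕ) (D : Set (Fin d → ℝ)) (n : ℕ) : ENNReal :=
  ⨅ x : Fin n → D, ⨅ φ : (Fin n → ℝ) → ℝ, ⨆ f ∈ Cls d k D,
    ENNReal.ofReal |(∫ y in D, f y) - φ fun i => f (x i)|

lemma lower {d : ℕ} (k : ℕ) (S : ℕ → Set (Fin d → ℝ)) (ho : ∀ j, IsOpen (S j))
    (hd : Pairwise (Function.onFun Disjoint S)) (n : ℕ) (c : ℝ) (hc0 : 0 ≤ c)
    (hf : ∀ j, volume (S j) ≠ ⊤) (hc : ∀ j < 2 * n, c ≤ volume.real (S j)) :
    ENNReal.ofReal (n * c) ≤ err d k (⋃ j, S j) n := by
  classical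
  refine le_iInf fun x => le_iInf fun φ => ?_
  have := fun i => mem_iUnion.1 (x i).2
  choose idx hidx using this
  set J := Finset.range (2 * n) \ Finset.univ.image idx with hJ
  have hcard : n ≤ J.card := by
    have h1 := Finset.le_card_sdiff (Finset.univ.image idx) (Finset.range (2 * n))
    have h2 : (Finset.univ.image idx).card ≤ n := Finset.card_image_le.trans (by simp)
    rw [Finset.card_range, ← hJ] at h1
    omega
  set U := ⋃ j ∈ J, S j with hU
  have hUm : MeasurableSet U := Finset.measurableSet_biUnion _ fun j _ => (ho j).measurableSet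
  have hcl : ∀ s : ℝ, |s| ≤ 1 → U.indicator (fun _ => s) ∈ Cls d k (⋃ j, S j) := by
    intro s hs
    have hb : ∀ y, |U.indicator (fun _ => s) y| ≤ 1 := fun y => by
      by_cases a : y ∈ U <;> simp [a, hs]
    have hl : ∀ y ∈ interior (⋃ j, S j), ∃ r : ℝ, U.indicator (fun _ => s) =ᶠ[𝓝 y] fun _ => r := by
      intro y hy
      obtain ⟨j, hj⟩ := mem_iUnion.1 (interior_subset hy)
      by_cases a : j ∈ J
      · refine ⟨s, Filter.mem_of_superset ((ho j).mem_nhds hj) fun z hz => ?_⟩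
        exact indicator_of_mem (mem_biUnion a hz) _
      · refine ⟨0, Filter.mem_of_superset ((ho j).mem_nhds hj) fun z hz => ?_⟩
        refine indicator_of_notMem (fun b => ?_) _
        obtain ⟨l, hl, hz'⟩ := mem_iUnion₂.1 b
        exact disjoint_left.1 (hd (show j ≠ l from fun e => a (e ▸ hl))) hz hz'
    refine ⟨fun y hy => ?_, fun y _ => hb y, fun m _ i y hy => ?_⟩
    · obtain ⟨r, hr⟩ := hl y hy
      exact (contDiffAt_const.congr_of_eventuallyEq hr).contDiffWithinAt
    · rcases Nat.eq_zero_or_pos m with rfl | a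
      · simpa using hb y
      · obtain ⟨r, hr⟩ := hl y hy
        rw [(hr.iteratedFDeriv ℝ m).eq_of_nhds, iteratedFDeriv_const_of_ne a.ne']
        simp
  have hz : ∀ s : ℝ, (fun i => U.indicator (fun _ => s) (x i)) = 0 := fun s => funext fun i => by
    refine indicator_of_notMem (fun b => ?_) _
    obtain ⟨l, hl, hz'⟩ := mem_iUnion₂.1 b
    refine disjoint_left.1 (hd (show idx i ≠ l from fun e => ?_)) (hidx i) hz'
    exact (Finset.mem_sdiff.1 hl).2 (Finset.mem_image.2 ⟨i, Finset.mem_univ _, e⟩)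
  have hI : ∀ s : ℝ, ∫ y in ⋃ j, S j, U.indicator (fun _ => s) y = volume.real U * s := fun s => by
    rw [setIntegral_indicator hUm, inter_eq_right.2 (iUnion₂_subset fun j _ => subset_iUnion S j)]
    simp [hU]
  have hv : n * c ≤ volume.real U := by
    rw [hU, measureReal_biUnion_finset (fun i _ j _ h => hd h) (fun j _ => (ho j).measurableSet)
      fun j _ => hf j]
    have := Finset.card_nsmul_le_sum J (fun j => volume.real (S j)) c fun j hj =>
      hc j (Finset.mem_range.1 (Finset.mem_sdiff.1 hj).1)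
    rw [nsmul_eq_mul] at this
    exact (mul_le_mul_of_nonneg_right (by exact_mod_cast hcard) hc0).trans this
  rcases le_total (φ 0) 0 with a | a
  · refine le_iSup₂_of_le _ (hcl 1 (by simp)) (ENNReal.ofReal_le_ofReal ?_)
    rw [hz, hI]
    exact le_abs.2 (Or.inl (by linarith))
  · refine le_iSup₂_of_le _ (hcl (-1) (by simp)) (ENNReal.ofReal_le_ofReal ?_)
    rw [hz, hI]
    exact le_abs.2 (Or.inr (by linarith))

lemma slabs (d : ℕ) (l : ℕ → ℝ) (hl : ∀ j, 0 ≤ l j) (hs : HasSum l 1) :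
    ∃ S : ℕ → Set (Fin (d + 1) → ℝ), (∀ j, IsOpen (S j)) ∧ Pairwise (Function.onFun Disjoint S) ∧
      (∀ j, volume (S j) = ENNReal.ofReal (l j)) ∧ ∀ j, S j ⊆ Icc 0 1 := by
  let b : ℕ → ℝ := fun j => ∑ i ∈ Finset.range j, l i
  have bm : Monotone b := monotone_nat_of_le_succ fun j => by
    simp only [b, Finset.sum_range_succ]; linarith [hl j]
  have b0 : ∀ j, 0 ≤ b j := fun j => Finset.sum_nonneg fun i _ => hl i
  have b1 : ∀ j, b j ≤ 1 := fun j => sum_le_hasSum _ (fun i _ => hl i) hs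
  refine ⟨fun j => univ.pi fun i => Ioo (Fin.cons (α := fun _ => ℝ) (b j) (fun _ => 0) i)
    (Fin.cons (α := fun _ => ℝ) (b (j + 1)) (fun _ => 1) i),
    fun j => isOpen_set_pi finite_univ fun _ _ => isOpen_Ioo, ?_, fun j => ?_, fun j y hy => ?_⟩
  · refine (pairwise_disjoint_on _).2 fun i j hij => ?_
    refine disjoint_left.2 fun y h1 h2 => ?_
    have h3 := (h1 0 trivial).2
    have h4 := (h2 0 trivial).1
    have h5 := bm (show i + 1 ≤ j from hij)
    simp only [Fin.cons_zero] at h3 h4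
    linarith
  · rw [Real.volume_pi_Ioo, Fin.prod_univ_succ]
    simp [b, Finset.sum_range_succ]
  · refine ⟨fun i => ?_, fun i => ?_⟩ <;> have := hy i trivial <;> revert this <;>
      refine Fin.cases ?_ (fun i => ?_) i <;> simp only [Fin.cons_zero, Fin.cons_succ, mem_Ioo,
        Pi.zero_apply, Pi.one_apply] <;> rintro ⟨h1, h2⟩ <;> linarith [b0 j, b1 (j + 1)]

theorem result (d k : ℕ) (hd : 1 ≤ d) (hk : 1 ≤ k) : ∃ D : Set (Fin d → ℝ),
    Bornology.IsBounded D ∧ volume (frontier D) = 0 ∧ volume D = 1 ∧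
    Tendsto (fun n : ℕ => err d k D n * ENNReal.ofReal ((n : ℝ) ^ ((k : ℝ) / d))) atTop (𝓝 ⊤) := by
  obtain ⟨d, rfl⟩ : ∃ e, d = e + 1 := ⟨d - 1, by omega⟩
  set q : ℝ := (k : ℝ) / (d + 1 : ℕ) with hq
  have q0 : 0 < q := by positivity
  have hs : Summable fun j : ℕ => ((j + 1 : ℕ) : ℝ) ^ (-(1 + q / 2)) :=
    (summable_nat_add_iff (f := fun j : ℕ => (j : ℝ) ^ (-(1 + q / 2))) 1).2
      (Real.summable_nat_rpow.2 (by linarith))
  set T := ∑' j : ℕ, ((j + 1 : ℕ) : ℝ) ^ (-(1 + q / 2)) with hT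
  have T0 : 0 < T := hs.tsum_pos (fun j => by positivity) 0 (by positivity)
  have h1 : HasSum (fun j : ℕ => T⁻¹ * ((j + 1 : ℕ) : ℝ) ^ (-(1 + q / 2))) 1 := by
    have := hs.hasSum.mul_left T⁻¹
    rwa [← hT, inv_mul_cancel₀ T0.ne'] at this
  obtain ⟨S, ho, hj, hv, hb⟩ := slabs d _ (fun j => by positivity) h1
  have hB : (⋃ j, S j) ⊆ Icc 0 1 := iUnion_subset hb
  have hV : volume (⋃ j, S j) = 1 := by
    rw [measure_iUnion hj fun j => (ho j).measurableSet]
    simp only [hv]
    rw [← ENNReal.ofReal_tsum_of_nonneg (fun j => by positivity) h1.summable, h1.tsum_eq]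
    simp
  refine ⟨⋃ j, S j, (Metric.isBounded_Icc 0 1).subset hB, ?_, hV, ?_⟩
  · rw [(isOpen_iUnion ho).frontier_eq]
    refine measure_mono_null (sdiff_subset_sdiff_left (closure_minimal hB isClosed_Icc)) ?_
    rw [measure_sdiff hB (isOpen_iUnion ho).measurableSet.nullMeasurableSet (by simp [hV]), hV,
      Real.volume_Icc_pi]
    simp
  · have h2 : Tendsto (fun n : ℕ => ENNReal.ofReal (T⁻¹ * 2 ^ (-(1 + q / 2)) * (n : ℝ) ^ (q / 2)))
        atTop (𝓝 ⊤) := ENNReal.tendsto_ofReal_atTop.comp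
      (((tendsto_rpow_atTop (by positivity)).comp tendsto_natCast_atTop_atTop).const_mul_atTop
        (by positivity))
    refine tendsto_nhds_top_mono h2 ?_
    filter_upwards [eventually_gt_atTop 0] with n hn
    have n0 : (0 : ℝ) < n := by exact_mod_cast hn
    have h3 := lower k S ho hj n (T⁻¹ * (2 * n : ℝ) ^ (-(1 + q / 2))) (by positivity)
      (fun j => by simp [hv]) fun j hj => by
        rw [Measure.real, hv, ENNReal.toReal_ofReal (by positivity)]
        refine mul_le_mul_of_nonneg_left (Real.rpow_le_rpow_of_nonpos (by positivity) ?_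
          (by linarith)) (by positivity)
        exact_mod_cast hj
    refine le_trans (le_of_eq ?_) (mul_le_mul_left h3 _)
    rw [← ENNReal.ofReal_mul (by positivity), Real.mul_rpow (by norm_num) n0.le]
    congr 1
    have h4 : (n : ℝ) ^ (q / 2) = n ^ (1 : ℝ) * n ^ (-(1 + q / 2)) * n ^ q := by
      rw [← Real.rpow_add n0, ← Real.rpow_add n0]; congr 1; ring
    rw [h4, Real.rpow_one]; ring

end Pool.Agent.Results.MP_935800_an.No
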